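import Pool.Agent.H1Tv.Words

/-!
# MP_ba10a5_co: graphs that are not `d`-Tverberg

The definitions `GeneralPosition`, `PartitionInduced` and `IsTverberg` are in
`Pool.Agent.H1Tv.Clusters` and `Pool.Agent.H1Tv.Main`.

The power set graph `P_k` is the bipartite incidence graph between a `k`-element set and all its
subsets. Take `N` points on the moment curve in `ℝ^d`. A partition of them into classes is a word of
length `N`, and two hulls meet iff the two letters alternate `d + 2` times. The letters of the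
`k`-element side cut the word into at most `k² (d + 2) + 1` regions with one such letter each. Two
letters of the other side share at most `d + 1` regions, and apart from the letters of its
regions, the neighbourhood of such a letter depends only on the set of regions where it occurs.
So the number `2^k` of distinct neighbourhoods is at most a polynomial in `k`.
-/

namespace Pool.Agent.Results.MP_ba10a5_co.NotTverbergGraphs

open Pool.Agent.H1Tv Filter

/-- A graph regarded as a `1`-dimensional simplicial complex: the faces are the empty set, the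
singletons and the edges. -/
def graphComplex {V : Type} (G : SimpleGraph V) : Set (Finset V) :=
  {F | F = ∅ ∨ (∃ v, F = {v}) ∨ ∃ u v, G.Adj u v ∧ ∀ w, w ∈ F ↔ w = u ∨ w = v}

/-- The bipartite incidence graph between the elements of `{0, ..., k-1}` and all subsets of it. -/
def powerSetGraph (k : ℕ) : SimpleGraph (Fin k ⊕ Finset (Fin k)) :=
  SimpleGraph.fromRel (fun x y => ∃ a u, x = Sum.inl a ∧ y = Sum.inr u ∧ a ∈ u)

theorem adj_ll (k : ℕ) (a b : Fin k) : ¬ (powerSetGraph k).Adj (Sum.inl a) (Sum.inl b) := by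
  simp [powerSetGraph, SimpleGraph.fromRel_adj]

theorem adj_rr (k : ℕ) (u v : Finset (Fin k)) :
    ¬ (powerSetGraph k).Adj (Sum.inr u) (Sum.inr v) := by
  simp [powerSetGraph, SimpleGraph.fromRel_adj]

theorem adj_rl (k : ℕ) (u : Finset (Fin k)) (a : Fin k) :
    (powerSetGraph k).Adj (Sum.inr u) (Sum.inl a) ↔ a ∈ u := by
  simp [powerSetGraph, SimpleGraph.fromRel_adj]

theorem growth (D : ℕ) : ∃ k₀ : ℕ, ∀ k, k₀ ≤ k → ((k * k * D + 2) * 2) ^ D < 2 ^ k := by
  have h := tendsto_pow_const_div_const_pow_of_one_lt (2 * D) (r := (2 : ℝ)) one_lt_two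
  have hpos : (0 : ℝ) < 1 / (2 * ((D : ℝ) + 2)) ^ D := by positivity
  obtain ⟨k₀, hk₀⟩ := eventually_atTop.1 (h.eventually (gt_mem_nhds hpos))
  refine ⟨max k₀ 1, fun k hk => ?_⟩
  have hk1 : 1 ≤ k := (le_max_right _ _).trans hk
  have h1 := hk₀ k ((le_max_left _ _).trans hk)
  have h2 : (0 : ℝ) < 2 ^ k := by positivity
  have h3 : (0 : ℝ) < (2 * ((D : ℝ) + 2)) ^ D := by positivity
  rw [div_lt_div_iff₀ h2 h3, one_mul] at h1
  have h4 : (((k * k * D + 2) * 2 : ℕ) : ℝ) ^ D ≤ (k : ℝ) ^ (2 * D) * (2 * ((D : ℝ) + 2)) ^ D := by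
    rw [pow_mul, ← mul_pow]
    apply pow_le_pow_left₀ (by positivity)
    push_cast
    have : (1 : ℝ) ≤ (k : ℝ) ^ 2 := by
      have : (1 : ℝ) ≤ k := by exact_mod_cast hk1
      nlinarith
    nlinarith
  have h5 : (((k * k * D + 2) * 2 : ℕ) : ℝ) ^ D < (2 : ℝ) ^ k := lt_of_le_of_lt h4 h1
  exact_mod_cast h5

theorem mem_pair {k : ℕ} (x y : Fin k ⊕ Finset (Fin k)) (hxy : x ≠ y) :
    ({x, y} : Finset (Fin k ⊕ Finset (Fin k))) ∈ graphComplex (powerSetGraph k) ↔
      (powerSetGraph k).Adj x y := by
  constructor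
  · rintro (h | ⟨v, h⟩ | ⟨u, v, huv, h⟩)
    · exact absurd h (by simp)
    · have hx : x ∈ ({v} : Finset _) := by rw [← h]; simp
      have hy : y ∈ ({v} : Finset _) := by rw [← h]; simp
      rw [Finset.mem_singleton] at hx hy
      exact absurd (hx.trans hy.symm) hxy
    · have hx := (h x).1 (by simp)
      have hy := (h y).1 (by simp)
      rcases hx with rfl | rfl <;> rcases hy with rfl | rfl
      · exact absurd rfl hxy
      · exact huv
      · exact huv.symm
      · exact absurd rfl hxy
  · intro h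
    exact Or.inr (Or.inr ⟨x, y, h, by simp⟩)

/-- For every `d ≥ 1` the power set graph `P_k` is not `d`-Tverberg for all large `k`. -/
theorem result (d : ℕ) (hd : 1 ≤ d) :
    ∃ k₀ : ℕ, ∀ k, k₀ ≤ k → ¬ IsTverberg (graphComplex (powerSetGraph k)) d := by
  classical
  obtain ⟨k₀, hk₀⟩ := growth (d + 2)
  refine ⟨max k₀ 1, fun k hk => ?_⟩
  have hk1 : 1 ≤ k := (le_max_right _ _).trans hk
  rintro ⟨N, hN⟩
  obtain ⟨c, _, hc⟩ := hN (mom d (N + 1)) (mom_general d (N + 1)) (by rw [mom_card d _ hd]; omega)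
  set ω : ℕ → PV k := fun t => c (gam d t) with hω
  have hset : ∀ x : PV k, {s | s ∈ mom d (N + 1) ∧ c s = x} =
      gam d '' (pos ω (N + 1) x : Set ℕ) := by
    intro x
    ext s
    constructor
    · rintro ⟨h1, h2⟩
      unfold mom at h1
      rw [Finset.mem_image] at h1
      obtain ⟨t, ht, rfl⟩ := h1
      exact ⟨t, mem_pos.2 ⟨Finset.mem_range.1 ht, h2⟩, rfl⟩
    · rintro ⟨t, ht, rfl⟩
      have ht' := mem_pos.1 (Finset.mem_coe.1 ht)
      refine ⟨?_, ht'.2⟩
      unfold mom
      exact Finset.mem_image_of_mem _ (Finset.mem_range.2 ht'.1)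
  have hAlt : ∀ x y : PV k, x ≠ y →
      (Alt (pos ω (N + 1) x) (pos ω (N + 1) y) (d + 2) ↔ (powerSetGraph k).Adj x y) := by
    intro x y hxy
    have h1 := hc {x, y}
    rw [mem_pair x y hxy] at h1
    rw [h1]
    have h2 : (⋂ v ∈ ({x, y} : Finset (PV k)), convexHull ℝ {s | s ∈ mom d (N + 1) ∧ c s = v}) =
        convexHull ℝ (gam d '' (pos ω (N + 1) x : Set ℕ)) ∩
          convexHull ℝ (gam d '' (pos ω (N + 1) y : Set ℕ)) := by
      ext p
      simp only [Set.mem_iInter, Finset.mem_insert, Finset.mem_singleton, hset, Set.mem_inter_iff]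
      constructor
      · intro h
        exact ⟨h x (Or.inl rfl), h y (Or.inr rfl)⟩
      · rintro ⟨ha, hb⟩ v (rfl | rfl)
        · exact ha
        · exact hb
    rw [h2]
    constructor
    · exact not_disjoint_of_alt d _ _
    · intro h
      apply alt_of_inter d _ _ h
      rw [Finset.disjoint_left]
      intro t h1 h2
      rw [mem_pos] at h1 h2
      exact hxy (h1.2.symm.trans h2.2)
  have hbound := words_bound (d + 2) k (N + 1) (by omega) hk1 ω
    (fun a b hab h => adj_ll k a b ((hAlt _ _ (fun h => hab (Sum.inl.inj h))).1 h))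
    (fun u v huv h => adj_rr k u v ((hAlt _ _ (fun h => huv (Sum.inr.inj h))).1 h))
    (fun u a => (hAlt _ _ (by simp)).trans (adj_rl k u a))
  have := hk₀ k ((le_max_left _ _).trans hk)
  omega

end Pool.Agent.Results.MP_ba10a5_co.NotTverbergGraphs
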